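import Mathlib
import Pool.Agent.H.MP_5897b0_lc.E
import Pool.Agent.H.MP_5897b0_lc.J

set_option autoImplicit false

namespace Pool.Agent.Results.MP_5897b0_lc.Dichotomy

open Classical

/-- almost disjoint family of infinite-dimensional subspaces -/
def AD {F E : Type} [Field F] [AddCommGroup E] [Module F E] (𝒜 : Set (Submodule F E)) : Prop :=
  (∀ V ∈ 𝒜, ¬ Module.Finite F V) ∧ ∀ V ∈ 𝒜, ∀ W ∈ 𝒜, V ≠ W → Module.Finite F ↥(V ⊓ W)

/-- maximal almost disjoint family -/
def Mad {F E : Type} [Field F] [AddCommGroup E] [Module F E] (𝒜 : Set (Submodule F E)) : Prop :=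
  AD 𝒜 ∧ ∀ ℬ : Set (Submodule F E), AD ℬ → 𝒜 ⊆ ℬ → ℬ = 𝒜

theorem result (F E : Type) [Field F] [Countable F] [AddCommGroup E] [Module F E]
    (b : Module.Basis ℕ F E) :
    (∃ 𝒜 : Set (Submodule F E), 𝒜.Infinite ∧ Mad 𝒜 ∧
      MeasureTheory.AnalyticSet
        ((fun (V : Submodule F E) (x : E) => (decide (x ∈ V) : Bool)) '' 𝒜)) ↔
    ∃ a : F, a ≠ 0 ∧ a ≠ 1 := by
  have e := b.repr
  constructor
  · rintro ⟨𝒜, hinf, ⟨⟨h1, h2⟩, hmax⟩, han⟩
    by_contra hc
    have hF : ∀ a : F, a = 0 ∨ a = 1 := fun a => by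
      by_contra h; push Not at h; exact hc ⟨a, h⟩
    have : Finite F := Set.finite_univ_iff.1 ((Set.toFinite ({0, 1} : Set F)).subset
      fun a _ => hF a)
    have : Countable E := e.injective.countable
    have key : ∀ W : Submodule F E, Module.Finite F W ↔ (W : Set E).Finite := fun W =>
      Module.finite_iff_finite.trans Set.finite_coe_iff
    obtain ⟨Y, hY, hYV⟩ := H.MP_5897b0_lc.Two.not_mad hF hinf
      (fun V hV h => h1 V hV ((key V).2 h)) (fun V hV W hW hne => (key _).1 (h2 V hV W hW hne)) han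
    have hAD : AD (insert Y 𝒜) := by
      refine ⟨?_, ?_⟩
      · rintro V (rfl | hV)
        · exact fun h => hY ((key _).1 h)
        · exact h1 V hV
      · rintro V (rfl | hV) W (rfl | hW) hne
        · exact absurd rfl hne
        · exact (key _).2 (hYV W hW)
        · rw [inf_comm]; exact (key _).2 (hYV V hV)
        · exact h2 V hV W hW hne
    have hm : Y ∈ 𝒜 := by rw [← hmax _ hAD (Set.subset_insert _ _)]; exact Set.mem_insert _ _
    exact hY (by simpa using hYV Y hm)
  · rintro ⟨a, h0, h1⟩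
    obtain ⟨𝒜, hinf, -, h2, h3, h4, h5⟩ := H.MP_5897b0_lc.main h0 h1
    have key : ∀ V : Submodule F (ℕ →₀ F),
        Module.Finite F (V.comap e.toLinearMap) ↔ Module.Finite F V := fun V =>
      Module.Finite.equiv_iff (e.ofSubmodule' V)
    have hinj : Function.Injective (fun V : Submodule F (ℕ →₀ F) => V.comap e.toLinearMap) :=
      Submodule.comap_injective_of_surjective e.surjective
    refine ⟨(fun V => V.comap e.toLinearMap) '' 𝒜, hinf.image hinj.injOn, ⟨⟨?_, ?_⟩, ?_⟩, ?_⟩
    · rintro _ ⟨V, hV, rfl⟩; rw [key]; exact h2 V hV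
    · rintro _ ⟨V, hV, rfl⟩ _ ⟨W, hW, rfl⟩ hne
      rw [← Submodule.comap_inf, key]
      exact h3 V hV W hW fun h => hne (by rw [h])
    · intro ℬ hB hsub
      refine Set.Subset.antisymm (fun Y hY => ?_) hsub
      have eY : (Y.map e.toLinearMap).comap e.toLinearMap = Y :=
        Submodule.comap_map_eq_of_injective e.injective Y
      obtain ⟨V, hV, hn⟩ := h4 (Y.map e.toLinearMap) (by rw [← key, eY]; exact hB.1 Y hY)
      rw [← key, Submodule.comap_inf, eY] at hn
      by_contra hYA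
      exact hn (hB.2 Y hY _ (hsub ⟨V, hV, rfl⟩) fun h => hYA ⟨V, hV, h.symm⟩)
    · have : PolishSpace ((ℕ →₀ F) → Bool) := ⟨⟩
      have := h5.analyticSet.image_of_continuous
        (f := fun (φ : (ℕ →₀ F) → Bool) (x : E) => φ (e x)) (by fun_prop)
      rw [Set.image_image] at this ⊢
      exact this

end Pool.Agent.Results.MP_5897b0_lc.Dichotomy
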